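import Pool.Agent.Helper91.OWN.Haydon

/-!
MP_2b27bc_an: Asplund spaces without continuous Fréchet differentiable norm: the spaces `C₀(T)` of
all infinitely branching trees `T` in which increasing sequences have suprema.
-/

open scoped BoundedContinuousFunction
open TopologicalSpace

namespace Pool.Agent.Results.MP_2b27bc_an.TreeSpaces

/-- `T` is a rooted well-founded tree with countable branches below each node, in which every node
has infinitely many immediate successors and every increasing sequence has a supremum. -/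
structure IsBigTree (T : Type) [PartialOrder T] : Prop where
  nonempty : Nonempty T
  chain : ∀ r s t : T, r ≤ t → s ≤ t → r ≤ s ∨ s ≤ r
  wf : WellFoundedLT T
  countable : ∀ t : T, (Set.Iic t).Countable
  meet : ∀ s t : T, ∃ m, IsGLB {s, t} m
  succ : ∀ t : T, {c | t ⋖ c}.Infinite
  sup : ∀ t : ℕ → T, Monotone t → ∃ L, IsLUB (Set.range t) L

/-- `v` exhibits `X` as `C₀(T)`: `v x` is the function `x`, the norm is the supremum norm, the
indicator functions of the sets `{s | s ≤ t}` belong to `X` and span a dense subspace. -/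
structure IsC0 (T : Type) [PartialOrder T] (X : Type) [NormedAddCommGroup X] [NormedSpace ℝ X]
    (v : X → T → ℝ) : Prop where
  add : ∀ x y s, v (x + y) s = v x s + v y s
  smul : ∀ (c : ℝ) x s, v (c • x) s = c * v x s
  norm : ∀ x (C : ℝ), 0 ≤ C → (‖x‖ ≤ C ↔ ∀ s, |v x s| ≤ C)
  ind : ∀ t, ∃ x, v x = Set.indicator (Set.Iic t) (fun _ => 1)
  dense : ∀ S : Submodule ℝ X, IsClosed (S : Set X) →
    (∀ x t, v x = Set.indicator (Set.Iic t) (fun _ => 1) → x ∈ S) → S = ⊤

/-- Every separable subspace has a separable dual. -/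
def IsAsplund (X : Type) [NormedAddCommGroup X] [NormedSpace ℝ X] : Prop :=
  ∀ Y : Submodule ℝ X, SeparableSpace Y → SeparableSpace (Y →L[ℝ] ℝ)

/-- No continuous norm is Fréchet differentiable at all nonzero points. -/
def NoSmoothNorm (X : Type) [NormedAddCommGroup X] [NormedSpace ℝ X] : Prop :=
  ∀ N : Seminorm ℝ X, Continuous N → (∀ x, N x = 0 → x = 0) →
    ∃ x, x ≠ 0 ∧ ¬ DifferentiableAt ℝ N x

/-- The function `f` vanishes outside the cone `{r | t < r}`. -/
def OnCone {T : Type} [PartialOrder T] (t : T) (f : T → ℝ) : Prop :=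
  ∀ r, f r ≠ 0 → t < r

/-- Every continuous seminorm which is Fréchet differentiable wherever it is not `0` vanishes, for
some `t` above any given `s`, on all functions supported on the cone of `t`. -/
def SmoothVanish (T : Type) [PartialOrder T] (X : Type) [NormedAddCommGroup X] [NormedSpace ℝ X]
    (v : X → T → ℝ) : Prop :=
  ∀ N : Seminorm ℝ X, Continuous N → (∀ x, N x ≠ 0 → DifferentiableAt ℝ N x) →
    ∀ s : T, ∃ t, s ≤ t ∧ ∀ x, OnCone t (v x) → N x = 0

open Pool.Agent.Helper30.Haydon in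
theorem bigTree_of {T : Type} [PartialOrder T] (h : IsBigTree T) : BigTree T where
  chain := h.chain
  ctbl := h.countable
  wf := h.wf.wf
  meet s t := by
    obtain ⟨m, hm⟩ := h.meet s t
    exact ⟨m, hm.1 (by simp), hm.1 (by simp), fun r h1 h2 => hm.2 (by
      rintro x (rfl | hx)
      · exact h1
      · rw [Set.mem_singleton_iff.1 hx]
        exact h2)⟩
  child t := by
    have hinf := (h.succ t).natEmbedding
    refine ⟨fun i => ((h.succ t).natEmbedding _ i : T), fun i => ?_, fun i s hs => ?_,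
      fun i j v h1 h2 => ?_⟩
    · exact ((h.succ t).natEmbedding _ i).2.lt
    · have hc : t ⋖ ((h.succ t).natEmbedding _ i : T) := ((h.succ t).natEmbedding _ i).2
      rcases h.chain s t _ hs hc.le with h1 | h1
      · exact Or.inl h1
      · rcases hc.eq_or_eq h1 hs with h2 | h2
        · exact Or.inl h2.le
        · exact Or.inr h2
    · have hc : t ⋖ ((h.succ t).natEmbedding _ i : T) := ((h.succ t).natEmbedding _ i).2
      have hc' : t ⋖ ((h.succ t).natEmbedding _ j : T) := ((h.succ t).natEmbedding _ j).2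
      apply ((h.succ t).natEmbedding _).injective
      apply Subtype.ext
      rcases h.chain _ _ v h1 h2 with h3 | h3
      · exact (hc'.eq_or_eq hc.le h3).resolve_left hc.lt.ne'
      · exact ((hc.eq_or_eq hc'.le h3).resolve_left hc'.lt.ne').symm
  lub t ht := by
    obtain ⟨L, hL⟩ := h.sup t ht
    refine ⟨L, fun n => hL.1 ⟨n, rfl⟩, fun s hs => ?_⟩
    by_cases hsL : s = L
    · exact Or.inl hsL
    · right
      by_contra hcon
      push Not at hcon
      apply hsL
      refine le_antisymm hs (hL.2 ?_)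
      rintro _ ⟨n, rfl⟩
      exact (h.chain s (t n) L hs (hL.1 ⟨n, rfl⟩)).resolve_left (hcon n)
  nonempty := h.nonempty

open Pool.Agent.Helper30.Haydon in
theorem of_bigTree {T : Type} [PartialOrder T] [BigTree T] : IsBigTree T where
  nonempty := BigTree.nonempty
  chain := BigTree.chain
  wf := ⟨BigTree.wf⟩
  countable := BigTree.ctbl
  meet s t := by
    obtain ⟨m, h1, h2, h3⟩ := BigTree.meet s t
    refine ⟨m, ?_, fun r hr => h3 r (hr (by simp)) (hr (by simp))⟩
    rintro x (rfl | hx)
    · exact h1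
    · rw [Set.mem_singleton_iff.1 hx]
      exact h2
  succ t := by
    obtain ⟨c, h1, h2, h3⟩ := BigTree.child t
    refine Set.infinite_of_injective_forall_mem (f := c) (fun i j hij => h3 i j (c i) le_rfl hij.ge)
      fun i => ⟨h1 i, fun s hs1 hs2 => ?_⟩
    rcases h2 i s hs2.le with h4 | h4
    · exact absurd h4 (not_le_of_gt hs1)
    · exact absurd h4 hs2.ne
  sup t ht := by
    by_cases hmax : ∃ n, ∀ k, t k ≤ t n
    · obtain ⟨n, hn⟩ := hmax
      refine ⟨t n, ?_, fun M hM => hM ⟨n, rfl⟩⟩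
      rintro _ ⟨k, rfl⟩
      exact hn k
    · obtain ⟨L, h1, h2⟩ := BigTree.lub t ht
      refine ⟨L, ?_, fun M hM => ?_⟩
      · rintro _ ⟨k, rfl⟩
        exact h1 k
      · obtain ⟨m, h3, h4, h5⟩ := BigTree.meet L M
        rcases h2 m h3 with h6 | ⟨n, hn⟩
        · rw [← h6]
          exact h4
        · exact absurd ⟨n, fun k => (h5 _ (h1 k) (hM ⟨k, rfl⟩)).trans hn⟩ hmax

open Pool.Agent.Helper30.Haydon in
/-- The model. -/
theorem isC0_XX (T : Type) [PartialOrder T] [TopologicalSpace T] [DiscreteTopology T] :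
    IsC0 T (XX T) (fun x s => vv x s) where
  add x y s := rfl
  smul c x s := rfl
  norm x C hC := norm_le_iff x hC
  ind t := ⟨e t, rfl⟩
  dense S hS h := by
    refine eq_top_iff.2 fun x _ => ?_
    exact dense_e S hS (fun t => h (e t) t rfl) x

open Pool.Agent.Helper30.Haydon in
/-- Every realization is isometric to the model. -/
theorem exists_iso {T : Type} [PartialOrder T] [TopologicalSpace T] [DiscreteTopology T]
    {X : Type} [NormedAddCommGroup X] [NormedSpace ℝ X] [CompleteSpace X] {v : X → T → ℝ}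
    (h : IsC0 T X v) : ∃ Φ : X ≃ₗᵢ[ℝ] XX T, ∀ x s, vv (Φ x) s = v x s := by
  have hb : ∀ x s, |v x s| ≤ ‖x‖ := fun x => (h.norm x ‖x‖ (norm_nonneg x)).1 le_rfl
  let F : X → EE T := fun x => (BoundedContinuousFunction.ofNormedAddCommGroup (v x)
    continuous_of_discreteTopology ‖x‖ fun s => by
      rw [Real.norm_eq_abs]
      exact hb x s : T →ᵇ ℝ)
  have hF : ∀ x s, ev (F x) s = v x s := fun x s => rfl
  have hext : ∀ f g : EE T, (∀ s, ev f s = ev g s) → f = g := fun f g hfg =>
    BoundedContinuousFunction.ext (f := (show T →ᵇ ℝ from f)) (g := (show T →ᵇ ℝ from g)) hfg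
  let L : X →ₗ[ℝ] EE T :=
    { toFun := F
      map_add' := fun x y => hext _ _ fun s => by
        have h1 : ev (F x + F y) s = ev (F x) s + ev (F y) s := rfl
        rw [h1, hF, hF, hF, h.add]
      map_smul' := fun c x => hext _ _ fun s => by
        have h1 : ev (c • F x) s = c * ev (F x) s := rfl
        rw [RingHom.id_apply, h1, hF, hF, h.smul] }
  have hL : ∀ x, ‖L x‖ = ‖x‖ := by
    intro x
    apply le_antisymm
    · exact (norm_le_iff' (L x) (norm_nonneg _)).2 (hb x)
    · exact (h.norm x _ (norm_nonneg _)).2 ((norm_le_iff' (L x) (norm_nonneg _)).1 le_rfl)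
  let L' : X →ₗᵢ[ℝ] EE T := ⟨L, hL⟩
  have hmem : ∀ x, L x ∈ XX T := by
    have h1 : (XX T).comap L = ⊤ := by
      refine h.dense _ (isClosed_XX.preimage L'.continuous) fun x t hx => ?_
      have h2 : L x = (e t : XX T) := hext _ _ fun s => by
        have h3 : ev (L x) s = v x s := rfl
        rw [h3, hx]
        rfl
      show L x ∈ XX T
      rw [h2]
      exact (e t).2
    intro x
    have : x ∈ (XX T).comap L := by rw [h1]; trivial
    exact this
  let M : X →ₗᵢ[ℝ] XX T := ⟨L.codRestrict (XX T) hmem, fun x => hL x⟩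
  have hsurj : Function.Surjective M := by
    have hcl : IsClosed (Set.range M) := M.isometry.isClosedEmbedding.isClosed_range
    intro f
    have h2 : f ∈ LinearMap.range M.toLinearMap := by
      refine dense_e (LinearMap.range M.toLinearMap) ?_ ?_ f
      · exact hcl
      · intro t
        obtain ⟨x, hx⟩ := h.ind t
        refine ⟨x, ext_vv fun s => ?_⟩
        show v x s = _
        rw [hx]
        rfl
    exact h2
  refine ⟨LinearIsometryEquiv.ofSurjective M hsurj, fun x s => rfl⟩

open Pool.Agent.Helper30.Haydon in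
theorem main (T : Type) [PartialOrder T] (hT : IsBigTree T)
    (X : Type) [NormedAddCommGroup X] [NormedSpace ℝ X] [CompleteSpace X] (v : X → T → ℝ)
    (h : IsC0 T X v) :
    IsAsplund X ∧ (∀ x, {s | v x s ≠ 0}.Countable) ∧ SmoothVanish T X v := by
  have := bigTree_of hT
  let _ : TopologicalSpace T := ⊥
  have : DiscreteTopology T := ⟨rfl⟩
  obtain ⟨Φ, hΦ⟩ := exists_iso h
  have hc : ∀ x, {s | v x s ≠ 0}.Countable := by
    intro x
    have h1 := countable_support (Φ x)
    simpa only [hΦ] using h1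
  refine ⟨fun Y hY => ?_, hc, fun N hN hd s => ?_⟩
  · let R : (XX T →L[ℝ] ℝ) →L[ℝ] (X →L[ℝ] ℝ) :=
      ContinuousLinearMap.precomp ℝ (Φ.toContinuousLinearEquiv : X →L[ℝ] XX T)
    refine asplund_of (fun s => R (dl (T := T) s)) (fun φ => ?_) (fun x => ?_) Y hY
    · have h1 := mem_WW (φ.comp (Φ.symm.toContinuousLinearEquiv : XX T →L[ℝ] X))
      have h2 : R (φ.comp (Φ.symm.toContinuousLinearEquiv : XX T →L[ℝ] X)) = φ := by
        ext x
        show φ (Φ.symm (Φ x)) = φ x
        rw [Φ.symm_apply_apply]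
      rw [← h2]
      have h3 : WW T ≤ (Submodule.span ℝ (Set.range fun s => R (dl (T := T) s))).topologicalClosure.comap
          R.toLinearMap := by
        refine Submodule.topologicalClosure_minimal _ ?_
          ((Submodule.isClosed_topologicalClosure _).preimage R.continuous)
        rw [Submodule.span_le]
        rintro _ ⟨s, rfl⟩
        exact Submodule.le_topologicalClosure _ (Submodule.subset_span ⟨s, rfl⟩)
      exact h3 h1
    · have h1 : ∀ s, R (dl (T := T) s) x = v x s := fun s => hΦ x s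
      simpa only [h1] using hc x
  · let N' : Seminorm ℝ (XX T) := N.comp (Φ.symm.toLinearEquiv : XX T →ₗ[ℝ] X)
    have hN' : ∀ f, N' f = N (Φ.symm f) := fun f => rfl
    have hcont : Continuous N' := hN.comp Φ.symm.continuous
    obtain ⟨C, hC, hb⟩ := Seminorm.bound_of_continuous_normedSpace N' hcont
    obtain ⟨t, h1, h2⟩ := Pool.Agent.Helper91.OWN.Haydon.exists_cone (p := N') (C := C)
      ⟨map_add_le_add N', fun c x => by
        rw [map_smul_eq_mul, Real.norm_eq_abs], hb, hC.le⟩
      (fun f hf => (hd (Φ.symm f) hf).comp f Φ.symm.toContinuousLinearEquiv.differentiableAt) s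
    refine ⟨t, h1, fun x hx => ?_⟩
    have h3 := h2 (Φ x) fun r hr => by
      by_contra hne
      rw [hΦ] at hne
      exact hr (hx r hne)
    rw [hN', Φ.symm_apply_apply] at h3
    exact h3

open Pool.Agent.Helper30.Haydon in
/-- Nonzero functions supported on a cone. -/
theorem exists_ne (T : Type) [PartialOrder T] (hT : IsBigTree T)
    (X : Type) [NormedAddCommGroup X] [NormedSpace ℝ X] [CompleteSpace X] (v : X → T → ℝ)
    (h : IsC0 T X v) (t : T) : ∃ x, x ≠ 0 ∧ OnCone t (v x) := by
  have := bigTree_of hT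
  let _ : TopologicalSpace T := ⊥
  have : DiscreteTopology T := ⟨rfl⟩
  obtain ⟨Φ, hΦ⟩ := exists_iso h
  have key : ∃ f : XX T, f ≠ 0 ∧ ∀ r, vv f r ≠ 0 → t < r := by
    refine ⟨e (ch t 0) - e t, fun h0 => ?_, fun r hr => ?_⟩
    · have h5 := J_apply_mem (T := T) (u := t) (v := ch t 0) (s := ch t 0) le_rfl
        (not_le_of_gt (lt_ch t 0))
      rw [h0, Pool.Agent.Helper30.Haydon.zero_apply] at h5
      exact zero_ne_one h5
    · obtain ⟨h1, h2⟩ := J_ne (lt_ch t 0).le hr
      rcases le_or_eq_of_le_ch t 0 r h1 with h3 | h3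
      · exact absurd h3 h2
      · rw [h3]
        exact lt_ch t 0
  obtain ⟨f, h1, h2⟩ := key
  refine ⟨Φ.symm f, fun h0 => h1 ?_, fun r hr => h2 r ?_⟩
  · rw [← Φ.apply_symm_apply f, h0, map_zero]
  · rw [← hΦ, Φ.apply_symm_apply] at hr
    exact hr

theorem noSmooth (T : Type) [PartialOrder T] (hT : IsBigTree T)
    (X : Type) [NormedAddCommGroup X] [NormedSpace ℝ X] [CompleteSpace X] (v : X → T → ℝ)
    (h : IsC0 T X v) : NoSmoothNorm X := by
  intro N hN hdef
  by_contra hcon
  push Not at hcon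
  obtain ⟨s⟩ := hT.nonempty
  obtain ⟨t, -, ht⟩ := (main T hT X v h).2.2 N hN (fun f hf => hcon f (by
    rintro rfl
    exact hf (map_zero N))) s
  obtain ⟨f, hf0, hf⟩ := exists_ne T hT X v h t
  exact hf0 (hdef f (ht f hf))

open Pool.Agent.Helper30.Haydon in
theorem exists_c0 (T : Type) [PartialOrder T] :
    ∃ (X : Type) (_ : NormedAddCommGroup X) (_ : NormedSpace ℝ X), CompleteSpace X ∧
      ∃ v, IsC0 T X v := by
  let _ : TopologicalSpace T := ⊥
  have : DiscreteTopology T := ⟨rfl⟩
  exact ⟨XX T, inferInstance, inferInstance, inferInstance, _, isC0_XX T⟩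

theorem result :
    (∃ (X : Type) (_ : NormedAddCommGroup X) (_ : NormedSpace ℝ X),
      CompleteSpace X ∧ IsAsplund X ∧ NoSmoothNorm X) ∧
    (∃ (T : Type) (_ : PartialOrder T), IsBigTree T) ∧
    ∀ (T : Type) [PartialOrder T], IsBigTree T →
      (∃ (X : Type) (_ : NormedAddCommGroup X) (_ : NormedSpace ℝ X),
        CompleteSpace X ∧ ∃ v, IsC0 T X v) ∧
      ∀ (X : Type) [NormedAddCommGroup X] [NormedSpace ℝ X] [CompleteSpace X] (v : X → T → ℝ),
        IsC0 T X v → IsAsplund X ∧ NoSmoothNorm X ∧ (∀ x, {s | v x s ≠ 0}.Countable) ∧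
          (∀ t, ∃ x, x ≠ 0 ∧ OnCone t (v x)) ∧ SmoothVanish T X v := by
  have key : ∀ (T : Type) [PartialOrder T], IsBigTree T →
      (∃ (X : Type) (_ : NormedAddCommGroup X) (_ : NormedSpace ℝ X),
        CompleteSpace X ∧ ∃ v, IsC0 T X v) ∧
      ∀ (X : Type) [NormedAddCommGroup X] [NormedSpace ℝ X] [CompleteSpace X] (v : X → T → ℝ),
        IsC0 T X v → IsAsplund X ∧ NoSmoothNorm X ∧ (∀ x, {s | v x s ≠ 0}.Countable) ∧
          (∀ t, ∃ x, x ≠ 0 ∧ OnCone t (v x)) ∧ SmoothVanish T X v :=
    fun T _ hT => ⟨exists_c0 T, fun X _ _ _ v h => ⟨(main T hT X v h).1, noSmooth T hT X v h,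
      (main T hT X v h).2.1, exists_ne T hT X v h, (main T hT X v h).2.2⟩⟩
  have hTr : ∃ (T : Type) (_ : PartialOrder T), IsBigTree T :=
    ⟨Pool.Agent.Helper30.Haydon.Tr, inferInstance, of_bigTree⟩
  refine ⟨?_, hTr, key⟩
  obtain ⟨T, iT, hT⟩ := hTr
  obtain ⟨⟨X, i1, i2, i3, v, h⟩, hX⟩ := key T hT
  obtain ⟨h1, h2, -⟩ := hX X v h
  exact ⟨X, i1, i2, i3, h1, h2⟩

end Pool.Agent.Results.MP_2b27bc_an.TreeSpaces
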